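import Mathlib
import Pool.Agent.Q112.TP

/-!
# Transposed Poisson structures on one-dimensional central extensions (Q1)

`L = gl₂ ⋉ (V ⊕ V*)` with `V = ℂ²` and the central extension by the cocycle
`ω((A, v, w), (A', v', w')) = w(v') - w'(v)`.
-/

namespace Pool.Agent.Results.MP_d69fce_al.TransposedPoissonExtension

open Pool.Agent.Q112.TP

/-- There is a complex Lie algebra without non-trivial transposed Poisson structures, with an
indecomposable one-dimensional central extension admitting a non-trivial one. -/
theorem result : ∃ (L : Type) (_ : LieRing L) (_ : LieAlgebra ℂ L) (E : Type) (_ : LieRing E)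
    (_ : LieAlgebra ℂ E) (π : E →ₗ⁅ℂ⁆ L) (c : E),
    OnlyTrivialTransposedPoisson L ∧ IsIndecomposableCentralExtension π c ∧
      ∃ m : E →ₗ[ℂ] E →ₗ[ℂ] E, IsTransposedPoisson m ∧ m ≠ 0 :=
  ⟨LL, inferInstance, inferInstance, EE, inferInstance, inferInstance, piE, cc, tp_trivial,
    isExt, mm, mm_tp, mm_ne⟩

end Pool.Agent.Results.MP_d69fce_al.TransposedPoissonExtension
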